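import Pool.Agent.Helper87.FX.StB

/-!
# Project FX (MP_3bffab_ag), module GRX: extension over all cells of a big cube
-/

set_option autoImplicit false

namespace Pool.Agent.Helper43.FX

open Pool.Agent.Helper87.FX Set Topology

/-- the key of the midpoint -/
theorem ky_mid {d : ℕ} (c : Fin d → ℤ) : ky (fun i => (c i : ℝ) / 2) = c := by
  funext i
  unfold ky
  rcases Int.even_or_odd' (c i) with ⟨a, ha | ha⟩
  · have h1 : ((c i : ℝ)) / 2 = (a : ℝ) := by rw [ha]; push_cast; ring
    simp only [h1, Int.floor_intCast, Int.ceil_intCast]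
    omega
  · have h1 : ((c i : ℝ)) / 2 = (a : ℝ) + 1 / 2 := by rw [ha]; push_cast; ring
    have h2 : ⌊(c i : ℝ) / 2⌋ = a := by
      rw [h1, Int.floor_eq_iff]
      constructor <;> linarith
    have h3 : ⌈(c i : ℝ) / 2⌉ = a + 1 := by
      rw [h1, Int.ceil_eq_iff]
      push_cast
      constructor <;> linarith
    show ⌊(c i : ℝ) / 2⌋ + ⌈(c i : ℝ) / 2⌉ = c i
    rw [h2, h3]
    omega

theorem ky_mem {d M : ℕ} {x : Fin d → ℝ} (hx : x ∈ bx d M) :
    ∀ i, -(2 * (M : ℤ)) ≤ ky x i ∧ ky x i ≤ 2 * (M : ℤ) := by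
  intro i
  have h := abs_le.1 (hx i)
  unfold ky
  have h1 : -(M : ℤ) ≤ ⌊x i⌋ := by
    apply Int.le_floor.2
    push_cast
    exact h.1
  have h2 : ⌈x i⌉ ≤ (M : ℤ) := by
    apply Int.ceil_le.2
    push_cast
    exact h.2
  have h3 : ⌊x i⌋ ≤ ⌈x i⌉ := Int.floor_le_ceil _
  constructor <;> omega

theorem cell_sub {d M : ℕ} {c : Fin d → ℤ} (hc : ∀ i, -(2 * (M : ℤ)) ≤ c i ∧ c i ≤ 2 * (M : ℤ)) :
    cell c ⊆ bx d M := by
  intro x hx i
  have h := hx i
  have h1 : -(M : ℤ) ≤ c i / 2 := by have := hc i; omega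
  have h2 : (c i + 1) / 2 ≤ (M : ℤ) := by have := hc i; omega
  have h1' : -(M : ℝ) ≤ ((c i / 2 : ℤ) : ℝ) := by exact_mod_cast h1
  have h2' : (((c i + 1) / 2 : ℤ) : ℝ) ≤ (M : ℝ) := by exact_mod_cast h2
  exact abs_le.2 ⟨by linarith [h.1], by linarith [h.2]⟩

open Classical in
theorem hGRX : StCEX → StKEY → StGRX := by
  intro hC hK V _ Y hY d M
  obtain ⟨k1, k2, k3, k4, k5⟩ := hK d
  let D : Finset (Fin d → ℤ) := Finset.Icc (fun _ => -(2 * (M : ℤ))) (fun _ => 2 * (M : ℤ))
  have memD : ∀ c : Fin d → ℤ, c ∈ D ↔ ∀ i, -(2 * (M : ℤ)) ≤ c i ∧ c i ≤ 2 * (M : ℤ) := by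
    intro c
    simp only [D, Finset.mem_Icc, Pi.le_def]
    exact ⟨fun h i => ⟨h.1 i, h.2 i⟩, fun h => ⟨fun i => (h i).1, fun i => (h i).2⟩⟩
  have main : ∀ (n : ℕ) (S : Set (Fin d → ℝ)) (f : (Fin d → ℝ) → V), IsClosed S → Sat S →
      ContinuousOn f S → MapsTo f S Y → (D.filter fun c => ∀ x ∈ S, ky x ≠ c).card = n →
      ∃ f' : (Fin d → ℝ) → V, ContinuousOn f' (S ∪ bx d M) ∧ MapsTo f' (S ∪ bx d M) Y ∧
        EqOn f' f S := by
    intro n
    induction n using Nat.strong_induction_on with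
    | _ n ih =>
      intro S f hS hSat hf hfY hn
      rcases Finset.eq_empty_or_nonempty (D.filter fun c => ∀ x ∈ S, ky x ≠ c) with h0 | h0
      · have hsub : bx d M ⊆ S := by
          intro x hx
          by_contra hxS
          have hx1 : ky x ∈ D.filter fun c => ∀ x ∈ S, ky x ≠ c := by
            rw [Finset.mem_filter]
            refine ⟨(memD _).2 (ky_mem hx), ?_⟩
            intro y hy hyx
            exact hxS (hSat y x hyx hy)
          rw [h0] at hx1
          simp at hx1
        refine ⟨f, ?_, ?_, fun x _ => rfl⟩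
        · rw [union_eq_self_of_subset_right hsub]; exact hf
        · rw [union_eq_self_of_subset_right hsub]; exact hfY
      · obtain ⟨c, hc, hmin⟩ := Finset.exists_min_image _ (fun c => dm c) h0
        rw [Finset.mem_filter] at hc
        have hcell : ∀ x ∈ cell c, ky x ≠ c → x ∈ S := by
          intro x hx hxc
          by_contra hxS
          have hlt := k4 c x hx hxc
          have hx1 : ky x ∈ D.filter fun c => ∀ x ∈ S, ky x ≠ c := by
            rw [Finset.mem_filter]
            refine ⟨(memD _).2 (ky_mem (cell_sub ((memD c).1 hc.1) hx)), ?_⟩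
            intro y hy hyx
            exact hxS (hSat y x hyx hy)
          have := hmin _ hx1
          omega
        obtain ⟨f1, hf1, hf1Y, hf1e⟩ := hC V Y hY d c S f hS hc.2 hcell hf hfY
        have hS' : IsClosed (S ∪ cell c) := hS.union (k1 c)
        have hSat' : Sat (S ∪ cell c) := by
          intro x y hxy hx
          rcases hx with hx | hx
          · exact Or.inl (hSat x y hxy hx)
          · exact Or.inr (k3 c x y hxy hx)
        have hlt : (D.filter fun c' => ∀ x ∈ S ∪ cell c, ky x ≠ c').card < n := by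
          rw [← hn]
          apply Finset.card_lt_card
          rw [Finset.ssubset_iff_of_subset]
          · refine ⟨c, Finset.mem_filter.2 hc, ?_⟩
            intro h
            rw [Finset.mem_filter] at h
            have hm : (fun i => (c i : ℝ) / 2) ∈ cell c := by
              have := k2 (fun i => (c i : ℝ) / 2)
              rwa [ky_mid] at this
            exact h.2 _ (Or.inr hm) (ky_mid c)
          · intro c' h
            rw [Finset.mem_filter] at h ⊢
            exact ⟨h.1, fun x hx => h.2 x (Or.inl hx)⟩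
        obtain ⟨f2, hf2, hf2Y, hf2e⟩ := ih _ hlt (S ∪ cell c) f1 hS' hSat' hf1 hf1Y rfl
        have hsub : S ∪ bx d M ⊆ (S ∪ cell c) ∪ bx d M :=
          union_subset_union_left _ subset_union_left
        exact ⟨f2, hf2.mono hsub, hf2Y.mono_left hsub,
          fun x hx => (hf2e (Or.inl hx)).trans (hf1e hx)⟩
  intro S f hS hSat hf hfY
  exact main _ S f hS hSat hf hfY rfl

end Pool.Agent.Helper43.FX
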