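import Pool.Agent.Helper84.FX.StX

/-!
# Project FX (MP_3bffab_ag), module TWR: tameness of rho on W
-/

set_option autoImplicit false

namespace Pool.Agent.Helper43.FX

open Pool.Agent.Helper84.FX Pool.Agent.Helper72.FX

/-- the derivative in the direction `v`, when the function is quadratic along the line -/
private theorem fd_line {f : (Fin 10 → ℂ) → ℂ} {x v : Fin 10 → ℂ} (hf : DifferentiableAt ℂ f x)
    {d e : ℂ} (h : ∀ s : ℂ, f (x + s • v) = f x + s * d + s ^ 2 * e) : fderiv ℂ f x v = d := by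
  have h1 : HasDerivAt (fun s : ℂ => f x + s * d + s ^ 2 * e) d 0 := by
    have h2 : HasDerivAt (fun s : ℂ => f x + s * d + s ^ 2 * e)
        (0 + 1 * d + ((2 : ℕ) : ℂ) * (0 : ℂ) ^ (2 - 1) * e) 0 :=
      ((hasDerivAt_const (0 : ℂ) (f x)).fun_add ((hasDerivAt_id' (0 : ℂ)).mul_const d)).fun_add
        ((hasDerivAt_pow 2 (0 : ℂ)).mul_const e)
    have e2 : 0 + 1 * d + ((2 : ℕ) : ℂ) * (0 : ℂ) ^ (2 - 1) * e = d := by
      norm_num
    rw [e2] at h2
    exact h2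
  have h3 : HasLineDerivAt ℂ f d x v := by
    unfold HasLineDerivAt
    have : (fun s : ℂ => f (x + s • v)) = fun s : ℂ => f x + s * d + s ^ 2 * e := funext h
    rw [this]
    exact h1
  exact (hf.hasFDerivAt.hasLineDerivAt v).unique h3

/-- a triangular system -/
private theorem surj_of {L1 L2 L3 : (Fin 10 → ℂ) →L[ℂ] ℂ} {v1 v2 v3 : Fin 10 → ℂ}
    (h1 : L1 v1 ≠ 0) (h13 : L3 v1 = 0) (h2 : L2 v2 ≠ 0) (h21 : L1 v2 = 0) (h23 : L3 v2 = 0)
    (h3 : L3 v3 = 1) :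
    Function.Surjective (fun v => ((L1 v, L2 v), L3 v)) := by
  rintro ⟨⟨al, be⟩, ga⟩
  let s : ℂ := (al - ga * L1 v3) / L1 v1
  let t : ℂ := (be - ga * L2 v3 - s * L2 v1) / L2 v2
  refine ⟨ga • v3 + s • v1 + t • v2, ?_⟩
  have e1 : L1 (ga • v3 + s • v1 + t • v2) = al := by
    simp only [map_add, map_smul, smul_eq_mul, h21, mul_zero, add_zero, s]
    field_simp
    ring
  have e2 : L2 (ga • v3 + s • v1 + t • v2) = be := by
    simp only [map_add, map_smul, smul_eq_mul, t]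
    field_simp
    ring
  have e3 : L3 (ga • v3 + s • v1 + t • v2) = ga := by
    simp only [map_add, map_smul, smul_eq_mul, h13, h23, h3]
    ring
  show ((L1 (ga • v3 + s • v1 + t • v2), L2 (ga • v3 + s • v1 + t • v2)),
    L3 (ga • v3 + s • v1 + t • v2)) = _
  rw [e1, e2, e3]

private theorem EE1_cd : ContDiff ℂ (⊤ : ℕ∞) EE1 := by
  have : EE1 = fun z : Fin 10 → ℂ =>
      2 * z 1 + z 2 * z 1 ^ 2 - z 0 ^ 2 - z 3 * z 4 - z 5 * z 6 := by
    funext z
    simp only [EE1, E1, nu]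
  rw [this]
  fun_prop

private theorem comb_cd {A B C D : (Fin 10 → ℂ) → ℂ} (hA : ContDiff ℂ (⊤ : ℕ∞) A)
    (hB : ContDiff ℂ (⊤ : ℕ∞) B) (hC : ContDiff ℂ (⊤ : ℕ∞) C) (hD : ContDiff ℂ (⊤ : ℕ∞) D) :
    ContDiff ℂ (⊤ : ℕ∞) (fun z : Fin 10 → ℂ => -(z 6 * z 4 * D z) + (z 8 - z 7) +
        z 5 * (z 2 * z 6 * A z * z 8 + z 2 * z 6 * B z * z 7 +
        z 2 * z 3 * z 7 * z 8 - 2 * z 6 * C z * z 9 - z 3 * z 9 ^ 2)) := by
  fun_prop

private theorem EE2_eq : EE2 = fun z : Fin 10 → ℂ =>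
    -(z 6 * z 4 * kappa (z 0) (z 1) (z 2)) + (z 8 - z 7) +
        z 5 * (z 2 * z 6 * kx (z 0) (z 1) (z 2) * z 8 + z 2 * z 6 * ky (z 0) (z 1) (z 2) * z 7 +
        z 2 * z 3 * z 7 * z 8 - 2 * z 6 * kz (z 0) (z 1) (z 2) * z 9 - z 3 * z 9 ^ 2) := by
  funext z
  unfold EE2 E2
  rfl

private theorem pcd :
    ContDiff ℂ (⊤ : ℕ∞) (fun z : Fin 10 → ℂ => ((z 0, z 1, z 2) : ℂ × ℂ × ℂ)) := by
  fun_prop

private theorem kcd {k : ℂ × ℂ × ℂ → ℂ} (h : ContDiff ℂ (⊤ : ℕ∞) k) :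
    ContDiff ℂ (⊤ : ℕ∞) (fun z : Fin 10 → ℂ => k (z 0, z 1, z 2)) := h.comp pcd

private theorem EE2_cd (hK : StKSM) : ContDiff ℂ (⊤ : ℕ∞) EE2 := by
  have h1 := kcd hK.1
  have h2 := kcd hK.2.1
  have h3 := kcd hK.2.2.1
  have h4 := kcd hK.2.2.2.1
  rw [EE2_eq]
  exact comb_cd h1 h2 h3 h4

theorem hTWR : StTMC → StKSM → StGR → StTWR := by
  intro hT hK hG U hU h0
  have c1 := EE1_cd
  have c2 := EE2_cd hK
  have key := hT (Fin 10 → ℂ) ℂ (ℂ × ℂ) {z : Fin 10 → ℂ | z 2 ∈ U}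
    (fun z => (EE1 z, EE2 z)) (fun z => z 3)
    (hU.preimage (continuous_apply 2))
    (((c1.prodMk c2).restrict_scalars ℝ).of_le (by exact_mod_cast le_top)).contDiffOn
    (by
      have : ContDiff ℝ 1 (fun z : Fin 10 → ℂ => z 3) := by fun_prop
      exact this.contDiffOn) ?_
  · have : {x : Fin 10 → ℂ | x ∈ {z : Fin 10 → ℂ | z 2 ∈ U} ∧ (EE1 x, EE2 x) = 0} = WW U := by
      ext z
      simp only [WW, Set.mem_ofPred_eq, Prod.mk_eq_zero]
    rw [this] at key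
    exact key
  · intro x hx he hg
    have hx2 : x 2 ≠ 0 := fun h => h0 (h ▸ hx)
    have he1 : EE1 x = 0 := (Prod.mk_eq_zero.1 he).1
    have he2 : EE2 x = 0 := (Prod.mk_eq_zero.1 he).2
    have d1 : DifferentiableAt ℂ EE1 x := (c1.differentiable (by simp)).differentiableAt
    have d2 : DifferentiableAt ℂ EE2 x := (c2.differentiable (by simp)).differentiableAt
    let P : (Fin 10 → ℂ) →L[ℂ] ℂ := ContinuousLinearMap.proj 3
    have hF : HasFDerivAt (𝕜 := ℂ) (fun y : Fin 10 → ℂ => ((EE1 y, EE2 y), y 3))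
        (((fderiv ℂ EE1 x).prod (fderiv ℂ EE2 x)).prod P) x :=
      (d1.hasFDerivAt.prodMk d2.hasFDerivAt).prodMk P.hasFDerivAt
    have hR := (hF.restrictScalars ℝ).fderiv
    rw [hR]
    -- the directions
    have P_s : ∀ i : Fin 10, i ≠ 3 → P (Pi.single i 1) = 0 := by
      intro i hi
      show (Pi.single i (1 : ℂ) : Fin 10 → ℂ) 3 = 0
      exact Pi.single_eq_of_ne (Ne.symm hi) 1
    -- E1 in the directions of omega
    have o7 : fderiv ℂ EE1 x (Pi.single 7 1) = 0 := by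
      refine fd_line d1 (d := 0) (e := 0) fun s => ?_
      simp [EE1]
    have o8 : fderiv ℂ EE1 x (Pi.single 8 1) = 0 := by
      refine fd_line d1 (d := 0) (e := 0) fun s => ?_
      simp [EE1]
    have o9 : fderiv ℂ EE1 x (Pi.single 9 1) = 0 := by
      refine fd_line d1 (d := 0) (e := 0) fun s => ?_
      simp [EE1]
    have w7 : fderiv ℂ EE2 x (Pi.single 7 1) =
        -1 + x 5 * (x 2 * x 6 * ky (x 0) (x 1) (x 2) + x 2 * x 3 * x 8) := by
      refine fd_line d2 (e := 0) fun s => ?_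
      simp [EE2, E2]
      ring
    have w8 : fderiv ℂ EE2 x (Pi.single 8 1) =
        1 + x 5 * (x 2 * x 6 * kx (x 0) (x 1) (x 2) + x 2 * x 3 * x 7) := by
      refine fd_line d2 (e := 0) fun s => ?_
      simp [EE2, E2]
      ring
    have w9 : fderiv ℂ EE2 x (Pi.single 9 1) =
        -2 * (x 5 * (x 6 * kz (x 0) (x 1) (x 2) + x 3 * x 9)) := by
      refine fd_line d2 (e := -(x 5 * x 3)) fun s => ?_
      simp [EE2, E2]
      ring
    have a0 : fderiv ℂ EE1 x (Pi.single 0 1) = -2 * x 0 := by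
      refine fd_line d1 (e := -1) fun s => ?_
      simp [EE1, E1, nu]
      ring
    have a1 : fderiv ℂ EE1 x (Pi.single 1 1) = 2 * (1 + x 2 * x 1) := by
      refine fd_line d1 (e := x 2) fun s => ?_
      simp [EE1, E1, nu]
      ring
    have a6 : fderiv ℂ EE1 x (Pi.single 6 1) = - x 5 := by
      refine fd_line d1 (e := 0) fun s => ?_
      simp [EE1, E1, nu]
      ring
    -- first direction
    have hv1 : ∃ v1 : Fin 10 → ℂ, fderiv ℂ EE1 x v1 ≠ 0 ∧ P v1 = 0 := by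
      by_cases hz0 : x 0 = 0
      · by_cases hz1 : 1 + x 2 * x 1 = 0
        · refine ⟨Pi.single 6 1, ?_, P_s 6 (by decide)⟩
          rw [a6]
          intro h5
          have h5' : x 5 = 0 := neg_eq_zero.1 h5
          have hn := hG.1 (x 0) (x 1) (x 2) hx2 hz0 hz1
          apply hn
          have : EE1 x = nu (x 0) (x 1) (x 2) - x 3 * x 4 - x 5 * x 6 := by
            simp only [EE1, E1]
          rw [he1, hg, h5'] at this
          simpa using this.symm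
        · refine ⟨Pi.single 1 1, ?_, P_s 1 (by decide)⟩
          rw [a1]
          exact mul_ne_zero two_ne_zero hz1
      · refine ⟨Pi.single 0 1, ?_, P_s 0 (by decide)⟩
        rw [a0]
        exact mul_ne_zero (by norm_num) hz0
    have hv2 : ∃ v2 : Fin 10 → ℂ, fderiv ℂ EE2 x v2 ≠ 0 ∧ fderiv ℂ EE1 x v2 = 0 ∧ P v2 = 0 := by
      rcases hG.2 U x ⟨hx, he1, he2⟩ with h | h | h
      · exact ⟨Pi.single 7 1, by rw [w7]; exact h, o7, P_s 7 (by decide)⟩
      · exact ⟨Pi.single 8 1, by rw [w8]; exact h, o8, P_s 8 (by decide)⟩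
      · exact ⟨Pi.single 9 1, by rw [w9]; exact mul_ne_zero (by norm_num) h, o9,
          P_s 9 (by decide)⟩
    obtain ⟨v1, hv1a, hv1b⟩ := hv1
    obtain ⟨v2, hv2a, hv2b, hv2c⟩ := hv2
    exact surj_of (v3 := Pi.single 3 1) hv1a hv1b hv2a hv2b hv2c
      (show (Pi.single (3 : Fin 10) (1 : ℂ) : Fin 10 → ℂ) 3 = 1 by simp)

end Pool.Agent.Helper43.FX
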